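import Pool.Agent.W488.IW.Defs

/-! Project IW: statements of the parts. -/

set_option autoImplicit false

namespace Pool.Agent.W488.IW

open MeasureTheory Set Filter Topology

/-! ### abstract Galerkin scheme -/

def S_ODE : Prop := ∀ (H : Type) [NormedAddCommGroup H] [InnerProductSpace ℂ H] [CompleteSpace H]
  (D : Dat H) (N : ℕ) (T : ℝ) (c0 : Idx → ℂ), 0 < T → (∀ k, k ∉ box N → c0 k = 0) →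
  ∃ c, Sol D N T c0 c

def S_EN : Prop := ∀ (H : Type) [NormedAddCommGroup H] [InnerProductSpace ℂ H] [CompleteSpace H]
  (D : Dat H) (N : ℕ) (T : ℝ) (c0 : Idx → ℂ) (c : ℝ → Idx → ℂ), 0 < T → Sol D N T c0 c →
  (∀ t ∈ Icc (0 : ℝ) T, en N (c t) ≤ en N c0 * Real.exp (-(2 * (D.n - 2) * Real.pi ^ 2 * t))) ∧
  ∫ t in (0 : ℝ)..T, di N (c t) ≤ en N c0 / (2 * (D.n - 2))

/-- convergence of a sequence of Galerkin solutions, coefficient by coefficient -/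
def Conv {H : Type} [NormedAddCommGroup H] [InnerProductSpace ℂ H] [CompleteSpace H]
    (D : Dat H) (T : ℝ) (c0 : Idx → ℂ) (Nn : ℕ → ℕ) (cs : ℕ → ℝ → Idx → ℂ)
    (cl : ℝ → Idx → ℂ) : Prop :=
  0 < T ∧ StrictMono Nn ∧ (∀ j, Sol D (Nn j) T c0 (cs j)) ∧
  (∀ k, ContinuousOn (fun t => cl t k) (Icc 0 T)) ∧
  ∀ k, TendstoUniformlyOn (fun j t => cs j t k) (fun t => cl t k) atTop (Icc 0 T)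

def S_COMP : Prop := ∀ (H : Type) [NormedAddCommGroup H] [InnerProductSpace ℂ H] [CompleteSpace H]
  (D : Dat H) (T : ℝ) (c0 : Idx → ℂ) (Nn : ℕ → ℕ) (cs : ℕ → ℝ → Idx → ℂ),
  0 < T → StrictMono Nn → (∀ j, Sol D (Nn j) T c0 (cs j)) →
  ∃ ψ : ℕ → ℕ, StrictMono ψ ∧ ∃ cl, Conv D T c0 (fun j => Nn (ψ j)) (fun j => cs (ψ j)) cl

def S_LIM : Prop := ∀ (H : Type) [NormedAddCommGroup H] [InnerProductSpace ℂ H] [CompleteSpace H]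
  (D : Dat H) (T : ℝ) (c0 : Idx → ℂ) (Nn : ℕ → ℕ) (cs : ℕ → ℝ → Idx → ℂ) (cl : ℝ → Idx → ℂ),
  Conv D T c0 Nn cs cl →
  (∀ᵐ t ∂(volume.restrict (Icc 0 T)), Summable fun k => m2 k ^ 2 * ‖cl t k‖ ^ 2) ∧
  IntegrableOn (fun t => ∑' k, m2 k ^ 2 * ‖cl t k‖ ^ 2) (Icc 0 T) ∧
  (∀ w : Idx → ℂ, (∀ k, ‖w k‖ ≤ m2 k) →
    AEStronglyMeasurable (fun t => smI D w (cl t)) (volume.restrict (Icc 0 T))) ∧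
  Tendsto (fun j => ∫ t in Icc 0 T, ‖sm D (box (Nn j)) ka (cs j t) - smI D ka (cl t)‖ ^ 2)
    atTop (𝓝 0) ∧
  Tendsto (fun j => ∫ t in Icc 0 T, ‖sm D (box (Nn j)) kb (cs j t) - smI D kb (cl t)‖ ^ 2)
    atTop (𝓝 0)

def S_LEQ : Prop := ∀ (H : Type) [NormedAddCommGroup H] [InnerProductSpace ℂ H] [CompleteSpace H]
  (D : Dat H) (T : ℝ) (c0 : Idx → ℂ) (Nn : ℕ → ℕ) (cs : ℕ → ℝ → Idx → ℂ) (cl : ℝ → Idx → ℂ),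
  Conv D T c0 Nn cs cl →
  ∀ k, ∀ t ∈ Icc (0 : ℝ) T,
    cl t k = c0 k + ∫ s in (0 : ℝ)..t, (inner ℂ (D.e k : H) (VI D (cl s)) : ℂ)

def S_STR : Prop := ∀ (H : Type) [NormedAddCommGroup H] [InnerProductSpace ℂ H] [CompleteSpace H]
  (D : Dat H) (T : ℝ) (c0 : Idx → ℂ) (Nn : ℕ → ℕ) (cs : ℕ → ℝ → Idx → ℂ) (cl : ℝ → Idx → ℂ),
  Conv D T c0 Nn cs cl →
  ∃ ψ : ℕ → ℕ, StrictMono ψ ∧ Tendsto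
    (fun j => ∫ t in Icc 0 T, ‖VN D (box (Nn (ψ j))) (cs (ψ j) t) - VI D (cl t)‖ ^ 2)
    atTop (𝓝 0)

def S_TAIL : Prop := ∀ (H : Type) [NormedAddCommGroup H] [InnerProductSpace ℂ H] [CompleteSpace H]
  (D : Dat H) (T : ℝ) (c0 : Idx → ℂ) (Nn : ℕ → ℕ) (cs : ℕ → ℝ → Idx → ℂ),
  0 < T → StrictMono Nn → (∀ j, Sol D (Nn j) T c0 (cs j)) →
  ∃ ψ : ℕ → ℕ, StrictMono ψ ∧ Tendsto
    (fun j => ∫ t in Icc 0 T, ‖VN D (box (Nn (ψ j))) (cs (ψ j) t)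
      - pr D (box (Nn (ψ j))) (VN D (box (Nn (ψ j))) (cs (ψ j) t))‖ ^ 2) atTop (𝓝 0)

/-! ### the torus -/

def S_CONC : Prop := ∀ ε n : ℝ, 0 < ε → 2 < n →
  ∃ (H : Type) (_ : NormedAddCommGroup H) (_ : InnerProductSpace ℂ H) (_ : CompleteSpace H)
    (D : Dat H), D.n = n ∧
    (∀ (Λ : Finset Idx) (c : Idx → ℂ) (k : Idx), (inner ℂ (D.e k : H) (VN D Λ c) : ℂ)
      = ∫ x in Icc (0 : V) 1, (starRingEnd ℂ) (ek k x) * Vp ε n Λ c x) ∧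
    (∀ (Λ Λ' : Finset Idx) (c : Idx → ℂ), ‖VN D Λ c - pr D Λ' (VN D Λ c)‖ ^ 2
      = ∫ x in Icc (0 : V) 1, ‖Vp ε n Λ c x - ∑ k ∈ Λ',
        (∫ y in Icc (0 : V) 1, (starRingEnd ℂ) (ek k y) * Vp ε n Λ c y) * ek k x‖ ^ 2)

def S_IBP : Prop := ∀ (w : ℂ × ℂ → ℝ), ContDiff ℝ 2 w → ∀ (Λ : Finset Idx) (c d : Idx → ℂ),
  ∫ x in Icc (0 : V) 1, fderiv ℝ w (gd Λ c x) (gd Λ d x)
    = - ∫ x in Icc (0 : V) 1, DIV w (gd Λ c x) (pp Λ c x) (qq Λ c x) (rr Λ c x)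
        (tp Λ (fun _ => 1) d x)

def S_CHAIN : Prop := ∀ (w : ℂ × ℂ → ℝ), ContDiff ℝ 2 w → ∀ (N : ℕ) (T : ℝ)
  (c c' : ℝ → Idx → ℂ), 0 < T →
  (∀ k ∈ box N, ∀ t ∈ Icc (0 : ℝ) T, HasDerivWithinAt (fun t => c t k) (c' t k) (Icc 0 T) t) →
  (∀ k ∈ box N, ContinuousOn (fun t => c' t k) (Icc 0 T)) →
  (∫ x in Icc (0 : V) 1, w (gd (box N) (c T) x)) - ∫ x in Icc (0 : V) 1, w (gd (box N) (c 0) x)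
    = - ∫ t in (0 : ℝ)..T, ∫ x in Icc (0 : V) 1, DIV w (gd (box N) (c t) x) (pp (box N) (c t) x)
        (qq (box N) (c t) x) (rr (box N) (c t) x) (tp (box N) (fun _ => 1) (c' t) x)

def S_NULL : Prop := ∀ (e : ℂ × ℂ → ℝ), ContDiff ℝ 1 e → ∀ (Λ : Finset Idx) (c : Idx → ℂ),
  ∫ x in Icc (0 : V) 1, OMa e (gd Λ c x) (pp Λ c x) (qq Λ c x) (rr Λ c x) = 0 ∧
  ∫ x in Icc (0 : V) 1, OMb e (gd Λ c x) (pp Λ c x) (qq Λ c x) (rr Λ c x) = 0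

def S_FLOW : Prop := ∀ (ε n : ℝ), 0 < ε → 2 < n → ∀ (w : ℂ × ℂ → ℝ), ContDiff ℝ 2 w →
  (∃ K : ℝ, ∀ F, ‖fderiv ℝ (fderiv ℝ w) F‖ ≤ K) → w 0 = 0 → fderiv ℝ w 0 = 0 →
  (∀ (N : ℕ) (c : Idx → ℂ), 0 ≤ ∫ x in Icc (0 : V) 1, DIV w (gd (box N) c x) (pp (box N) c x)
    (qq (box N) c x) (rr (box N) c x) (Vp ε n (box N) c x)) → QC0 w

/-! ### the certificate -/

noncomputable def rho (κ : ℝ → ℝ) (x y : ℝ) : ℝ := 2 * x * κ (x + y) / (x + y)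
noncomputable def tau (κ : ℝ → ℝ) (x y : ℝ) : ℝ := κ (x - y)
noncomputable def xi (κ : ℝ → ℝ) (x y : ℝ) : ℝ := om1 κ (x - y) / x
noncomputable def ze (κ : ℝ → ℝ) (x y : ℝ) : ℝ := (om1 κ (x + y) - om1 κ (x - y)) / y

/-- `DIV w F p q r φ = Re (Lam · φ)`; `X, Y` regularised moduli, `ρ, τ, ξ, ζ` the numbers above -/
noncomputable def Lam (X Y ρ τ ξ ζ ϑ : ℝ) (a b p q r : ℂ) : ℂ :=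
  ((ρ / 2 + τ - ξ) / (2 * X ^ 2) : ℝ) * ((starRingEnd ℂ) a ^ 2 * p + ‖a‖ ^ 2 * (starRingEnd ℂ) q)
  + ((ρ / 2 + τ - ζ) / (2 * Y ^ 2) : ℝ) * ((starRingEnd ℂ) b ^ 2 * r + ‖b‖ ^ 2 * (starRingEnd ℂ) q)
  + ((ρ / 2 - τ) / (2 * X * Y) : ℝ) * (2 * (starRingEnd ℂ) a * (starRingEnd ℂ) b * q
      + (starRingEnd ℂ) a * b * (starRingEnd ℂ) r + a * (starRingEnd ℂ) b * (starRingEnd ℂ) p)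
  + (ξ + ζ + 2 * ϑ : ℝ) * (starRingEnd ℂ) q

noncomputable def OA (X Y τ ξ E ϑ : ℝ) (a b p q r : ℂ) : ℝ :=
  (‖a‖ ^ 2 / X ^ 2 * (ξ + 2 * τ) + (1 - ‖a‖ ^ 2 / X ^ 2) * (2 * E / X ^ 2) + 2 * ϑ)
      * (‖p‖ ^ 2 - ‖q‖ ^ 2)
  + (ξ - 2 * τ) / (X * Y) * ((starRingEnd ℂ) a * ((starRingEnd ℂ) b * r + b * (starRingEnd ℂ) q) * p
      - (starRingEnd ℂ) a * ((starRingEnd ℂ) b * q + b * (starRingEnd ℂ) r) * q).re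

noncomputable def OB (X Y τ ζ G ϑ : ℝ) (a b p q r : ℂ) : ℝ :=
  (-(‖b‖ ^ 2 / Y ^ 2 * (ζ + 2 * τ)) + (1 - ‖b‖ ^ 2 / Y ^ 2) * (2 * G / Y ^ 2) - 2 * ϑ)
      * (‖q‖ ^ 2 - ‖r‖ ^ 2)
  + (2 * τ - ζ) / (X * Y) * ((starRingEnd ℂ) b * ((starRingEnd ℂ) a * q + a * (starRingEnd ℂ) p) * q
      - (starRingEnd ℂ) b * ((starRingEnd ℂ) a * p + a * (starRingEnd ℂ) q) * r).re

def S_HDIV : Prop := ∀ (κ : ℝ → ℝ), Bump κ → ∀ (ε ϑ : ℝ), 0 < ε → ∀ (a b p q r φ : ℂ),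
  DIV (wT κ ε ϑ) (a, b) p q r φ
    = (Lam (XX ε a) (XX ε b) (rho κ (XX ε a) (XX ε b)) (tau κ (XX ε a) (XX ε b))
        (xi κ (XX ε a) (XX ε b)) (ze κ (XX ε a) (XX ε b)) ϑ a b p q r * φ).re

def S_HA : Prop := ∀ (κ : ℝ → ℝ), Bump κ → ∀ (ε ϑ : ℝ), 0 < ε → ∀ (a b p q r : ℂ),
  OMa (eT κ ε ϑ) (a, b) p q r
    = OA (XX ε a) (XX ε b) (tau κ (XX ε a) (XX ε b)) (xi κ (XX ε a) (XX ε b))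
        (EE κ (XX ε a) (XX ε b)) ϑ a b p q r

def S_HB : Prop := ∀ (κ : ℝ → ℝ), Bump κ → ∀ (ε ϑ : ℝ), 0 < ε → ∀ (a b p q r : ℂ),
  OMb (gT κ ε ϑ) (a, b) p q r
    = OB (XX ε a) (XX ε b) (tau κ (XX ε a) (XX ε b)) (ze κ (XX ε a) (XX ε b))
        (GG κ (XX ε a) (XX ε b)) ϑ a b p q r

def S_REG : Prop := ∀ (κ : ℝ → ℝ), Bump κ → ∀ (ε ϑ : ℝ), 0 < ε → ε < 1 / 8 →
  ContDiff ℝ 2 (wT κ ε ϑ) ∧ (∃ K : ℝ, ∀ F, ‖fderiv ℝ (fderiv ℝ (wT κ ε ϑ)) F‖ ≤ K) ∧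
  wT κ ε ϑ 0 = 0 ∧ fderiv ℝ (wT κ ε ϑ) 0 = 0 ∧
  ContDiff ℝ 1 (eT κ ε ϑ) ∧ ContDiff ℝ 1 (gT κ ε ϑ)

/-- real form of the certificate, symmetric part; `A = |a|/X`, `B = |b|/Y`, `e2 = 2E/X^2`,
`g2 = 2G/Y^2` -/
noncomputable def Fpl (A B ρ τ ξ ζ e2 g2 ϑ n P Q R : ℝ) : ℝ :=
  ((A ^ 2 * (ρ / 2 + τ - ξ) + A * B * (ρ / 2 - τ)) * P
    + (A ^ 2 * (ρ / 2 + τ - ξ) + B ^ 2 * (ρ / 2 + τ - ζ) + 2 * (A * B) * (ρ / 2 - τ)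
        + 2 * (ξ + ζ) + 4 * ϑ) * Q
    + (B ^ 2 * (ρ / 2 + τ - ζ) + A * B * (ρ / 2 - τ)) * R) * (A * B * P + n * Q + A * B * R)
  + (A ^ 2 * (ξ + 2 * τ) + (1 - A ^ 2) * e2 + 2 * ϑ) * (P ^ 2 - Q ^ 2)
  + (-(B ^ 2 * (ζ + 2 * τ)) + (1 - B ^ 2) * g2 - 2 * ϑ) * (Q ^ 2 - R ^ 2)
  + A * B * (ξ - 2 * τ) * (P * R + P * Q - Q ^ 2 - Q * R)
  + A * B * (2 * τ - ζ) * (Q ^ 2 + P * Q - P * R - Q * R)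

/-- real form of the certificate, antisymmetric part -/
noncomputable def Fmi (A B ρ τ ξ ζ e2 g2 ϑ n P Q R : ℝ) : ℝ :=
  -((A ^ 2 * (ρ / 2 + τ - ξ) * (P - Q) + B ^ 2 * (ρ / 2 + τ - ζ) * (R - Q)
      + A * B * (ρ / 2 - τ) * (2 * Q - R - P) - (2 * (ξ + ζ) + 4 * ϑ) * Q)
        * (A * B * P + n * Q + A * B * R))
  + (A ^ 2 * (ξ + 2 * τ) + (1 - A ^ 2) * e2 + 2 * ϑ) * (P ^ 2 - Q ^ 2)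
  + (-(B ^ 2 * (ζ + 2 * τ)) + (1 - B ^ 2) * g2 - 2 * ϑ) * (Q ^ 2 - R ^ 2)
  + A * B * (ξ - 2 * τ) * (-(P * R) + P * Q + Q ^ 2 - Q * R)
  + A * B * (2 * τ - ζ) * (-Q ^ 2 + P * Q + P * R - Q * R)

def S_ROT : Prop := ∀ (X Y ρ τ ξ ζ E G ϑ n : ℝ) (a b p q r : ℂ), 0 < X → 0 < Y →
  ∃ P Q R P' Q' R' : ℝ,
    2 * (Lam X Y ρ τ ξ ζ ϑ a b p q r *
      (n * q + (starRingEnd ℂ) a * b / ((X * Y : ℝ) : ℂ) * p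
        + (starRingEnd ℂ) ((starRingEnd ℂ) a * b / ((X * Y : ℝ) : ℂ)) * r)).re
      + OA X Y τ ξ E ϑ a b p q r + OB X Y τ ζ G ϑ a b p q r
    = Fpl (‖a‖ / X) (‖b‖ / Y) ρ τ ξ ζ (2 * E / X ^ 2) (2 * G / Y ^ 2) ϑ n P Q R
      + Fmi (‖a‖ / X) (‖b‖ / Y) ρ τ ξ ζ (2 * E / X ^ 2) (2 * G / Y ^ 2) ϑ n P' Q' R'

/-- the numerical facts used by the certificate -/
structure Bnd (K ε A B ρ τ ξ ζ e2 g2 : ℝ) : Prop where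
  hA : 0 ≤ A ∧ A ≤ 1
  hB : 0 ≤ B ∧ B ≤ 1
  r0 : 0 ≤ ρ ∧ ρ ≤ K
  t0 : 0 ≤ τ ∧ τ ≤ K
  x0 : 0 ≤ ξ ∧ ξ ≤ K
  z0 : 0 ≤ ζ ∧ ζ ≤ K
  b1 : (1 - A ^ 2) * |ρ / 2 + τ - ξ| ≤ K * ε
  b2 : (1 - B ^ 2) * |ρ / 2 + τ - ζ| ≤ K * ε
  b3 : (1 - A * B) * |ρ / 2 - τ| ≤ K * ε
  b4 : (1 - A ^ 2) * |e2 - (ξ + 2 * τ)| ≤ K * ε
  b5 : (1 - B ^ 2) * |g2 + (ζ + 2 * τ)| ≤ K * ε
  b6 : (1 - A * B) * (2 * τ - ζ) ≤ K * ε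

def S_ALG : Prop := ∀ K ϑ : ℝ, 1 ≤ K → 0 < ϑ → ∃ δ : ℝ, 0 < δ ∧ ∃ ε1 : ℝ, 0 < ε1 ∧
  ∀ ε : ℝ, 0 < ε → ε < ε1 → ∀ A B ρ τ ξ ζ e2 g2 : ℝ, Bnd K ε A B ρ τ ξ ζ e2 g2 →
  ∀ P Q R : ℝ, 0 ≤ Fpl A B ρ τ ξ ζ e2 g2 ϑ (2 + 4 * δ) P Q R ∧
    0 ≤ Fmi A B ρ τ ξ ζ e2 g2 ϑ (2 + 4 * δ) P Q R

def S_BND : Prop := ∀ κ : ℝ → ℝ, Bump κ → ∃ K : ℝ, 1 ≤ K ∧ ∀ ε : ℝ, 0 < ε → ε < 1 / 8 →
  ∀ x y : ℝ, 0 ≤ x → 0 ≤ y → ∀ X Y : ℝ, X = Real.sqrt (x ^ 2 + ε ^ 2) →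
    Y = Real.sqrt (y ^ 2 + ε ^ 2) →
    Bnd K ε (x / X) (y / Y) (rho κ X Y) (tau κ X Y) (xi κ X Y) (ze κ X Y)
      (2 * EE κ X Y / X ^ 2) (2 * GG κ X Y / Y ^ 2)

/-- the pointwise certificate -/
def S_PC : Prop := ∀ κ : ℝ → ℝ, Bump κ → ∀ ϑ : ℝ, 0 < ϑ → ∃ δ : ℝ, 0 < δ ∧ ∃ ε1 : ℝ, 0 < ε1 ∧
  ∀ ε : ℝ, 0 < ε → ε < ε1 → ∀ (F : ℂ × ℂ) (p q r : ℂ),
    0 ≤ 2 * DIV (wT κ ε ϑ) F p q r (Vv ε (2 + 4 * δ) F p q r)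
      + OMa (eT κ ε ϑ) F p q r + OMb (gT κ ε ϑ) F p q r

/-! ### conclusions -/

def S_QT : Prop := ∀ κ : ℝ → ℝ, Bump κ → ∀ ϑ : ℝ, 0 < ϑ → ∀ ε0 : ℝ, 0 < ε0 →
  ∃ ε : ℝ, 0 < ε ∧ ε < ε0 ∧ QC0 (wT κ ε ϑ)

def S_QW : Prop := ∀ κ : ℝ → ℝ, Bump κ → QC0 (fun F => fW κ ‖F.1‖ ‖F.2‖)

def S_QK : Prop := ∀ s : ℝ, 0 < s → QC0 (fun F => Ks s ‖F.1‖ ‖F.2‖)

def S_QP : Prop := ∀ p : ℝ, 2 < p → QC0 (fun F => Wp p ‖F.1‖ ‖F.2‖)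

def S_PLANE : Prop := ∀ w : ℂ × ℂ → ℝ, Continuous w → w 0 = 0 → QC0 w →
  ∀ f : ℂ → ℂ, ContDiff ℝ 1 f → HasCompactSupport f → 0 ≤ ∫ z : ℂ, w (dz f z, dzb f z)

/-- Parseval for trigonometric polynomials on the cube -/
def S_PARS : Prop := ∀ (Λ : Finset Idx) (w c : Idx → ℂ),
  ∫ x in Icc (0 : V) 1, ‖tp Λ w c x‖ ^ 2 = ∑ k ∈ Λ, ‖w k * c k‖ ^ 2

/-- the function `fW κ` is a superposition of the kernels -/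
def S_FK : Prop := ∀ κ : ℝ → ℝ, Bump κ → ∀ x y : ℝ, 0 ≤ x → 0 ≤ y →
  fW κ x y = ∫ s in (1 / 2 : ℝ)..2, κ s * Ks s x y

/-- the homogeneous function is a superposition of the kernels -/
def S_WK : Prop := ∀ p x y : ℝ, 2 < p → 0 ≤ x → 0 ≤ y →
  IntegrableOn (fun s => s ^ (p - 2) * Ks s x y) (Ioi 0) ∧
  Wp p x y = p * (p - 1) * (p - 2) * ∫ s in Ioi (0 : ℝ), s ^ (p - 2) * Ks s x y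

def S_PTW (p0 : ℝ) : Prop := ∀ p x y : ℝ, p0 ≤ p → 0 ≤ x → 0 ≤ y →
  p * (1 - 1 / p) ^ (p - 1) * Wp p x y ≤ (p - 1) ^ p * x ^ p - y ^ p

/-- **The sharp inequality** for `p ≥ p0`. -/
def S_IW (p0 : ℝ) : Prop := ∀ p : ℝ, p0 ≤ p → ∀ f : ℂ → ℂ, ContDiff ℝ 1 f → HasCompactSupport f →
  ∫ z, ‖dzb f z‖ ^ p ≤ (p - 1) ^ p * ∫ z, ‖dz f z‖ ^ p

/-! ### the Beurling transform -/

/-- `Tg` is the principal value of the Beurling transform of `g` -/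
def IsPV (g Tg : ℂ → ℂ) : Prop := ∀ x : ℂ, Tendsto (fun ε : ℝ => -(1 / (Real.pi : ℂ)) *
  ∫ y in {y : ℂ | ε < ‖x - y‖}, g y / (x - y) ^ 2) (𝓝[>] (0 : ℝ)) (𝓝 (Tg x))

def S_PV : Prop := ∀ g : ℂ → ℂ, ContDiff ℝ (⊤ : ℕ∞) g → HasCompactSupport g →
  ∃ f : ℂ → ℂ, ContDiff ℝ (⊤ : ℕ∞) f ∧ (∀ z, dzb f z = g z) ∧ IsPV g (dz f) ∧
    ∃ C : ℝ, ∀ z, ‖f z‖ * (1 + ‖z‖) ≤ C ∧ ‖fderiv ℝ f z‖ * (1 + ‖z‖ ^ 2) ≤ C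

def S_PVC : Prop := ∀ f : ℂ → ℂ, ContDiff ℝ (⊤ : ℕ∞) f → HasCompactSupport f →
  IsPV (dzb f) (dz f)

def S_UB (p0 : ℝ) : Prop := S_IW p0 → 2 ≤ p0 → ∀ p : ℝ, p0 ≤ p → ∀ g : ℂ → ℂ,
  ContDiff ℝ (⊤ : ℕ∞) g → HasCompactSupport g → ∀ Tg : ℂ → ℂ, IsPV g Tg →
  eLpNorm Tg (ENNReal.ofReal p) (volume : Measure ℂ)
    ≤ ENNReal.ofReal (p - 1) * eLpNorm g (ENNReal.ofReal p) (volume : Measure ℂ)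

def S_LB : Prop := ∀ p : ℝ, 2 < p → ∀ C : ENNReal,
  (∀ f : ℂ → ℂ, ContDiff ℝ (⊤ : ℕ∞) f → HasCompactSupport f →
    eLpNorm (dz f) (ENNReal.ofReal p) (volume : Measure ℂ)
      ≤ C * eLpNorm (dzb f) (ENNReal.ofReal p) (volume : Measure ℂ)) → ENNReal.ofReal (p - 1) ≤ C

/-- dual range -/
def S_DUAL (p0 : ℝ) : Prop := S_IW p0 → 2 ≤ p0 → ∀ p : ℝ, 1 < p → p ≤ p0 / (p0 - 1) →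
  ∀ f : ℂ → ℂ, ContDiff ℝ 1 f → HasCompactSupport f →
  ∫ z, ‖dzb f z‖ ^ p ≤ (1 / (p - 1)) ^ p * ∫ z, ‖dz f z‖ ^ p

end Pool.Agent.W488.IW
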