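import Mathlib

/-! Project IW: the norm of the Beurling-Ahlfors transform.  Definitions. -/

set_option autoImplicit false

namespace Pool.Agent.W488.IW

open MeasureTheory Set Filter Topology

/-- frequencies -/
abbrev Idx := ℤ × ℤ

/-- symbol of `∂_z` -/
noncomputable def ka (k : Idx) : ℂ := Real.pi * Complex.I * (k.1 - k.2 * Complex.I)

/-- symbol of `∂_zbar` -/
noncomputable def kb (k : Idx) : ℂ := Real.pi * Complex.I * (k.1 + k.2 * Complex.I)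

/-- `m2 k = |ka k|^2 = |kb k|^2 = - ka k * kb k` -/
noncomputable def m2 (k : Idx) : ℝ := Real.pi ^ 2 * ((k.1 : ℝ) ^ 2 + (k.2 : ℝ) ^ 2)

/-- the box of frequencies -/
noncomputable def box (N : ℕ) : Finset Idx := Finset.Icc (-(N : ℤ)) N ×ˢ Finset.Icc (-(N : ℤ)) N

/-! ### the abstract Galerkin scheme -/

section abs

/-- The data of the abstract flow `u' = n q + s(a,b) p + s(a,b)^* r`. -/
structure Dat (H : Type) [NormedAddCommGroup H] [InnerProductSpace ℂ H] [CompleteSpace H] where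
  e : HilbertBasis Idx ℂ H
  s : H → H → H →L[ℂ] H
  n : ℝ
  L : ℝ
  hn : 2 < n
  h1 : ∀ a b, ‖s a b‖ ≤ 1
  h2 : ∀ a b a' b' k, ‖s a b (e k) - s a' b' (e k)‖ ≤ L * (‖a - a'‖ + ‖b - b'‖)
  h3 : ∀ a b a' b' k, ‖(s a b).adjoint (e k) - (s a' b').adjoint (e k)‖
        ≤ L * (‖a - a'‖ + ‖b - b'‖)

variable {H : Type} [NormedAddCommGroup H] [InnerProductSpace ℂ H] [CompleteSpace H]

/-- finite Fourier sums -/
noncomputable def sm (D : Dat H) (Λ : Finset Idx) (w c : Idx → ℂ) : H :=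
  ∑ k ∈ Λ, (w k * c k) • D.e k

/-- infinite Fourier sums -/
noncomputable def smI (D : Dat H) (w c : Idx → ℂ) : H := ∑' k, (w k * c k) • D.e k

/-- the right hand side -/
noncomputable def Vf (D : Dat H) (a b p q r : H) : H :=
  (D.n : ℂ) • q + D.s a b p + (D.s a b).adjoint r

/-- the right hand side at a trigonometric polynomial -/
noncomputable def VN (D : Dat H) (Λ : Finset Idx) (c : Idx → ℂ) : H :=
  Vf D (sm D Λ ka c) (sm D Λ kb c) (sm D Λ (fun k => ka k ^ 2) c)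
    (sm D Λ (fun k => ka k * kb k) c) (sm D Λ (fun k => kb k ^ 2) c)

/-- the right hand side at an infinite Fourier series -/
noncomputable def VI (D : Dat H) (c : Idx → ℂ) : H :=
  Vf D (smI D ka c) (smI D kb c) (smI D (fun k => ka k ^ 2) c)
    (smI D (fun k => ka k * kb k) c) (smI D (fun k => kb k ^ 2) c)

/-- orthogonal projection onto the modes in `Λ` -/
noncomputable def pr (D : Dat H) (Λ : Finset Idx) (v : H) : H :=
  ∑ k ∈ Λ, (inner ℂ (D.e k) v) • D.e k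

/-- Galerkin solution on `[0,T]` -/
def Sol (D : Dat H) (N : ℕ) (T : ℝ) (c0 : Idx → ℂ) (c : ℝ → Idx → ℂ) : Prop :=
  c 0 = c0 ∧ (∀ t, ∀ k, k ∉ box N → c t k = 0) ∧
  ∀ k ∈ box N, ∀ t ∈ Icc (0 : ℝ) T,
    HasDerivWithinAt (fun t => c t k) (inner ℂ (D.e k : H) (VN D (box N) (c t))) (Icc 0 T) t

/-- energy -/
noncomputable def en (N : ℕ) (c : Idx → ℂ) : ℝ := ∑ k ∈ box N, m2 k * ‖c k‖ ^ 2

/-- dissipation -/
noncomputable def di (N : ℕ) (c : Idx → ℂ) : ℝ := ∑ k ∈ box N, m2 k ^ 2 * ‖c k‖ ^ 2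

end abs

/-! ### trigonometric polynomials on the cube -/

abbrev V := Fin 2 → ℝ

/-- the exponentials -/
noncomputable def ek (k : Idx) (x : V) : ℂ :=
  Complex.exp (2 * Real.pi * (k.1 * x 0 + k.2 * x 1) * Complex.I)

/-- trigonometric polynomial with multiplier `w` and coefficients `c` -/
noncomputable def tp (Λ : Finset Idx) (w c : Idx → ℂ) (x : V) : ℂ := ∑ k ∈ Λ, w k * c k * ek k x

/-- the gradient `(u_z, u_zbar)` of the trigonometric polynomial -/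
noncomputable def gd (Λ : Finset Idx) (c : Idx → ℂ) (x : V) : ℂ × ℂ := (tp Λ ka c x, tp Λ kb c x)

noncomputable def pp (Λ : Finset Idx) (c : Idx → ℂ) (x : V) : ℂ := tp Λ (fun k => ka k ^ 2) c x
noncomputable def qq (Λ : Finset Idx) (c : Idx → ℂ) (x : V) : ℂ := tp Λ (fun k => ka k * kb k) c x
noncomputable def rr (Λ : Finset Idx) (c : Idx → ℂ) (x : V) : ℂ := tp Λ (fun k => kb k ^ 2) c x

/-- regularised modulus -/
noncomputable def XX (ε : ℝ) (a : ℂ) : ℝ := Real.sqrt (‖a‖ ^ 2 + ε ^ 2)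

/-- the coefficient -/
noncomputable def ss (ε : ℝ) (F : ℂ × ℂ) : ℂ :=
  (starRingEnd ℂ) F.1 * F.2 / ((XX ε F.1 * XX ε F.2 : ℝ) : ℂ)

/-- the velocity field -/
noncomputable def Vv (ε n : ℝ) (F : ℂ × ℂ) (p q r : ℂ) : ℂ :=
  n * q + ss ε F * p + (starRingEnd ℂ) (ss ε F) * r

/-- the velocity at a trigonometric polynomial -/
noncomputable def Vp (ε n : ℝ) (Λ : Finset Idx) (c : Idx → ℂ) (x : V) : ℂ :=
  Vv ε n (gd Λ c x) (pp Λ c x) (qq Λ c x) (rr Λ c x)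

/-- `div DW(∇u) · φ`, where `∇u = F` has the derivatives `(p+q, q+r)` and `(i(p-q), i(q-r))` -/
noncomputable def DIV (w : ℂ × ℂ → ℝ) (F : ℂ × ℂ) (p q r φ : ℂ) : ℝ :=
  fderiv ℝ (fderiv ℝ w) F (p + q, q + r) (φ / 2, φ / 2)
    + fderiv ℝ (fderiv ℝ w) F (Complex.I * (p - q), Complex.I * (q - r))
        (-(Complex.I * φ / 2), Complex.I * φ / 2)

/-- the exact form `d(e Im(conj a da))` -/
noncomputable def OMa (e : ℂ × ℂ → ℝ) (F : ℂ × ℂ) (p q r : ℂ) : ℝ :=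
  fderiv ℝ e F (p + q, q + r) * ((starRingEnd ℂ) F.1 * (Complex.I * (p - q))).im
    - fderiv ℝ e F (Complex.I * (p - q), Complex.I * (q - r))
        * ((starRingEnd ℂ) F.1 * (p + q)).im
    + 2 * e F * (‖p‖ ^ 2 - ‖q‖ ^ 2)

/-- the exact form `d(g Im(conj b db))` -/
noncomputable def OMb (g : ℂ × ℂ → ℝ) (F : ℂ × ℂ) (p q r : ℂ) : ℝ :=
  fderiv ℝ g F (p + q, q + r) * ((starRingEnd ℂ) F.2 * (Complex.I * (q - r))).im
    - fderiv ℝ g F (Complex.I * (p - q), Complex.I * (q - r))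
        * ((starRingEnd ℂ) F.2 * (q + r)).im
    + 2 * g F * (‖q‖ ^ 2 - ‖r‖ ^ 2)

/-- the integral inequality for gradients of trigonometric polynomials -/
def QC0 (w : ℂ × ℂ → ℝ) : Prop :=
  ∀ (N : ℕ) (c : Idx → ℂ), 0 ≤ ∫ x in Icc (0 : V) 1, w (gd (box N) c x)

/-! ### the functions -/

/-- admissible `κ = ω''` -/
structure Bump (κ : ℝ → ℝ) : Prop where
  nonneg : ∀ t, 0 ≤ κ t
  lip : ∃ L, LipschitzWith L κ
  low : ∀ t, t ≤ 1 / 2 → κ t = 0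
  high : ∀ t, 2 ≤ t → κ t = 0

/-- `ω'` -/
noncomputable def om1 (κ : ℝ → ℝ) (t : ℝ) : ℝ := ∫ s in (0 : ℝ)..t, κ s
/-- `ω` -/
noncomputable def om (κ : ℝ → ℝ) (t : ℝ) : ℝ := ∫ s in (0 : ℝ)..t, om1 κ s
/-- `h'` -/
noncomputable def hh1 (κ : ℝ → ℝ) (t : ℝ) : ℝ := ∫ s in (0 : ℝ)..t, κ s / s
/-- `h` -/
noncomputable def hh (κ : ℝ → ℝ) (t : ℝ) : ℝ := ∫ s in (0 : ℝ)..t, hh1 κ s

/-- the function of `x = |u_z|`, `y = |u_zbar|` -/
noncomputable def fW (κ : ℝ → ℝ) (x y : ℝ) : ℝ :=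
  ((x - y) * hh κ (x + y) + om κ (x + y)) / 2 + om κ (x - y)

noncomputable def EE (κ : ℝ → ℝ) (x y : ℝ) : ℝ := 2 * x * om1 κ (x - y) - om κ (x - y)
noncomputable def GG (κ : ℝ → ℝ) (x y : ℝ) : ℝ :=
  -om κ (x + y) + 2 * y * om1 κ (x - y) + om κ (x - y)

noncomputable def wW (κ : ℝ → ℝ) (ε : ℝ) (F : ℂ × ℂ) : ℝ := fW κ (XX ε F.1) (XX ε F.2)
noncomputable def wT (κ : ℝ → ℝ) (ε ϑ : ℝ) (F : ℂ × ℂ) : ℝ :=
  wW κ ε F + ϑ / 2 * (‖F.1‖ ^ 2 + ‖F.2‖ ^ 2)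
noncomputable def eT (κ : ℝ → ℝ) (ε ϑ : ℝ) (F : ℂ × ℂ) : ℝ :=
  EE κ (XX ε F.1) (XX ε F.2) / XX ε F.1 ^ 2 + ϑ
noncomputable def gT (κ : ℝ → ℝ) (ε ϑ : ℝ) (F : ℂ × ℂ) : ℝ :=
  GG κ (XX ε F.1) (XX ε F.2) / XX ε F.2 ^ 2 - ϑ

/-- Sverak type kernel -/
noncomputable def Ks (s x y : ℝ) : ℝ :=
  (x * max (x + y - s) 0 - max (x + y - s) 0 ^ 2 / 2) / s + max (x - y - s) 0

/-- the homogeneous function -/
noncomputable def Wp (p x y : ℝ) : ℝ :=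
  ((p - 1) * x - y) * (x + y) ^ (p - 1) + (p - 2) * max (x - y) 0 ^ p

noncomputable def dz (f : ℂ → ℂ) (z : ℂ) : ℂ :=
  1 / 2 * (fderiv ℝ f z 1 - Complex.I * fderiv ℝ f z Complex.I)
noncomputable def dzb (f : ℂ → ℂ) (z : ℂ) : ℂ :=
  1 / 2 * (fderiv ℝ f z 1 + Complex.I * fderiv ℝ f z Complex.I)

end Pool.Agent.W488.IW
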